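import Pool.Agent.P.MP_947019_nt.Count

open Pool.Agent.P.MP_947019_nt

namespace Pool.Agent.Results.MP_947019_nt.RareComposites

theorem result : ∀ᶠ x : ℕ in Filter.atTop,
    (((Finset.Icc 2 x).filter fun n => ¬ n.Prime ∧ S n ≡ 8 * n [MOD n ^ 2]).card : ℝ) ≤
      x * Real.exp (-(1 / 3) * √(Real.log x * Real.log (Real.log x))) := main

end Pool.Agent.Results.MP_947019_nt.RareComposites
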